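import Mathlib

/-!
# Staircase sequences of matrix units: the combinatorial part
-/

namespace Pool.Agent.V1157.PI

/-- A permutation which raises by one at every step is the identity. -/
lemma perm_eq_one {d : ℕ} (τ : Equiv.Perm (Fin d))
    (h : (List.ofFn (fun i => τ i)).IsChain (fun i j : Fin d => (j : ℕ) = (i : ℕ) + 1)) :
    τ = 1 := by
  rw [List.isChain_ofFn] at h
  have h1 : ∀ (i : ℕ) (hi : i < d), ∀ h0 : 0 < d, (τ ⟨i, hi⟩ : ℕ) = (τ ⟨0, h0⟩ : ℕ) + i := by
    intro i
    induction i with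
    | zero => intro hi h0; rfl
    | succ i ih =>
      intro hi h0
      rw [h i hi, ih (by omega) h0]
      ring
  ext i
  have hi := i.2
  have h0 : 0 < d := by omega
  have h2 := h1 (d - 1) (by omega) h0
  have h3 := (τ ⟨d - 1, by omega⟩).2
  have h4 := h1 i i.2 h0
  have h5 : (τ ⟨0, h0⟩ : ℕ) = 0 := by omega
  rw [show (⟨(i : ℕ), i.2⟩ : Fin d) = i from rfl] at h4
  rw [h4, h5, zero_add]
  rfl

end Pool.Agent.V1157.PI
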