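import Pool.Agent.V1157.PI.Hom

/-!
# Polynomial identities for numerically and homologically trivial correspondences
-/

open CategoryTheory AlgebraicGeometry

universe u v w

namespace Pool.Agent.V1157.PI

open Pool.Agent.H914 Pool.Agent.H914.VarClass Pool.Agent.H914.VarClass.Obj Pool.Agent.W492.BB
  Pool.Agent.W550.Corr Pool.Agent.TH133 Pool.Agent.Y148.BB Pool.Agent.TH829.Prime
  Pool.Agent.V1157.RC

variable {k : Type u} [Field k] {𝒱 : VarClass k} {C : TheoryData.{u, v, 0} 𝒱 ℚ}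
  [hC : IsChowProj C] {K : Type w} [Field K]

lemma polyVal_mem {X : 𝒱.Obj} {d : ℕ} (c : Equiv.Perm (Fin d) → ℚ) {W : Fin d → C.A (X.prod X)}
    (h : ∀ i, C.Deg X.dim (W i)) : C.Deg X.dim (polyVal C c W) := by
  rw [polyVal]
  refine Submodule.sum_mem _ fun σ _ => Submodule.smul_mem _ _ (compList_mem ?_)
  intro γ hγ
  rw [List.mem_ofFn] at hγ
  obtain ⟨i, rfl⟩ := hγ
  exact h _

lemma one_ne_zero_of (H : WeilTheoryData.{u, v, w} C K) [hH : IsWeilProj H] (X : 𝒱.Obj) :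
    (1 : C.A X) ≠ 0 := fun h => hH.one_ne_zero X (by rw [← map_one H.cl, h, map_zero])

/-- Conjecture D. -/
theorem conjD (H : WeilTheoryData.{u, v, w} C K) [hH : IsWeilProj H] {d : ℕ} (hd : 0 < d)
    {c : Equiv.Perm (Fin d) → ℚ} (hc : c ≠ 0) :
    (∀ (X : 𝒱.Obj) (i : ℤ) (a : C.A X), C.Deg i a → NumTrivial C i a → H.cl a = 0) ↔
      ∀ (X : 𝒱.Obj) (W : Fin d → C.A (X.prod X)),
        (∀ i, C.Deg X.dim (W i) ∧ NumTrivial C X.dim (W i)) → H.cl (polyVal C c W) = 0 := by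
  have hne := one_ne_zero_of H
  have h := core (isAdequate_numFam hne) (isPrime_numFam hne).one_notMem (isPrime_homFam H) hd hc
  constructor
  · intro h1 X W hW
    exact ((h.1 fun X i a ha => ⟨ha.1, h1 X i a ha.1 ha.2⟩) X W hW).2
  · intro h1 X i a ha hna
    exact ((h.2 fun X W hW => ⟨polyVal_mem c fun i => (hW i).1, h1 X W hW⟩) X i
      (show a ∈ numFam C X i from ⟨ha, hna⟩)).2

lemma smash_iff {I : Family C} (hI : IsAdequate C I) (h1 : ∀ X : 𝒱.Obj, (1 : C.A X) ∉ I X 0)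
    {d : ℕ} (hd : 0 < d) {c : Equiv.Perm (Fin d) → ℚ} (hc : c ≠ 0) :
    (∀ (X : 𝒱.Obj) (i : ℤ), ∀ a ∈ I X i, SmashNilpotent C a) ↔
      ∀ (X : 𝒱.Obj) (W : Fin d → C.A (X.prod X)), (∀ i, W i ∈ I (X.prod X) X.dim) →
        SmashNilpotent C (polyVal C c W) := by
  constructor
  · intro h X W hW
    rw [smashNilpotent_iff (polyVal_mem c fun i => hI.le_gr _ _ (hW i))]
    intro P hP
    refine (core hI h1 hP hd hc).1 (fun Y j a ha => ?_) X W hW
    exact (smashNilpotent_iff (hI.le_gr _ _ ha)).1 (h Y j a ha) P hP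
  · intro h X i a ha
    rw [smashNilpotent_iff (hI.le_gr _ _ ha)]
    intro P hP
    refine (core hI h1 hP hd hc).2 (fun Y W hW => ?_) X i ha
    exact (smashNilpotent_iff (polyVal_mem c fun i => hI.le_gr _ _ (hW i))).1 (h Y W hW) P hP

end Pool.Agent.V1157.PI
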