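import Pool.Agent.V1157.PI.Defs
import Pool.Agent.V1157.PI.Stair
import Pool.Agent.V1157.RC.Surf

/-!
# Polynomial identities for homologically trivial correspondences imply Bloch's conjecture for
surfaces of geometric genus zero
-/

open CategoryTheory AlgebraicGeometry

universe u v w

namespace Pool.Agent.V1157.PI

open Pool.Agent.H914 Pool.Agent.H914.VarClass Pool.Agent.H914.VarClass.Obj Pool.Agent.W492.BB
  Pool.Agent.W550.Corr Pool.Agent.TH133 Pool.Agent.Y148.BB Pool.Agent.Y152.AS Pool.Agent.V1157.RC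

set_option linter.unusedSectionVars false

variable {k : Type u} [Field k] {𝒱 : VarClass k} {C : TheoryData.{u, v, 0} 𝒱 ℚ}
  [hC : IsChowProj C] {S T V U X Y : 𝒱.Obj} {n : ℕ}

include hC

lemma act_shp_pow' (hS : S.dim = n) {a : C.A S} (ha : a ∈ C.gr S 1) {b : C.A T} {m l : ℚ}
    (hm : m ≠ 0) (dm : HasDegree C (a ^ n) m) (Z : C.A (S.prod T)) {i : ℕ} (hi : i ≤ n) :
    C.act (shp n a b m l Z) (a ^ i) = 0 := by
  rw [shp, C.act_comp, C.act_sub, act_dg, act_prj_pow hS ha hm dm hi, sub_self, C.act_map_zero]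

/-- `Z♯ δ = 0` for decomposable classes `δ` as they occur here. -/
lemma shp_comp_pow (hT : T.dim = n) {a : C.A S} {b : C.A T} (hb : b ∈ C.gr T 1) {m l : ℚ}
    (hl : l ≠ 0) (dl : HasDegree C (b ^ n) l) (Z : C.A (S.prod T)) {b' : C.A U} (c : ℚ) :
    C.comp (shp n a b m l Z) (c • (C.pull (fst T U) b + C.pull (snd T U) b') ^ n) = 0 := by
  rw [comp_smul', pow_eq_sum, comp_sum, Finset.sum_eq_zero, smul_zero]
  intro j hj
  have hj' : j ≤ n := Nat.lt_succ_iff.1 (Finset.mem_range.1 hj)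
  rw [comp_smul', comp_ext, tp_shp, act_shp_pow' hT hb hl dl (tp C Z) hj', C.ext_zero_left,
    smul_zero]

/-- The correspondence `V → S → S → V` attached to `Z` and two morphisms `p, q : V ⟶ S`. -/
noncomputable def mat (C : TheoryData.{u, v, 0} 𝒱 ℚ) {S V : 𝒱.Obj} (a : C.A S) (m : ℚ)
    (Z : C.A (S.prod S)) (p q : V ⟶ S) : C.A (V.prod V) :=
  C.comp (C.graph p) (C.comp (shp 2 a a m m Z) (C.cograph q))

lemma mat_comp_zero {a : C.A S} {m c : ℚ} (hS : S.dim = 2) (ha : a ∈ C.gr S 1) (hm : m ≠ 0)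
    (dm : HasDegree C (a ^ 2) m) (Z : C.A (S.prod S)) {p q p' q' : V ⟶ S}
    (h : C.push (Obj.lift q p') 1 = c • (C.pull (fst S S) a + C.pull (snd S S) a) ^ 2)
    (R : C.A (V.prod V)) : C.comp (mat C a m Z p q) (C.comp (mat C a m Z p' q') R) = 0 := by
  rw [mat, mat, comp_assoc, comp_assoc, comp_assoc, comp_assoc,
    ← comp_assoc C (C.cograph q) (C.graph p'), cog_gr, h, ← comp_assoc C (shp 2 a a m m Z),
    shp_comp_pow hS ha hm dm Z c, zero_comp, comp_zero]

section chain

variable {a : C.A S} {m κ : ℚ}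

/-- The staircase of matrix units. -/
noncomputable def st (C : TheoryData.{u, v, 0} 𝒱 ℚ) {S V : 𝒱.Obj} (a : C.A S) (m : ℚ)
    (Z : C.A (S.prod S)) {d : ℕ} (p : Fin (d + 1) → (V ⟶ S)) (i : Fin d) : C.A (V.prod V) :=
  mat C a m Z (p i.castSucc) (p i.succ)

lemma isChain_of_ne {d : ℕ} {c : ℚ} (hS : S.dim = 2) (ha : a ∈ C.gr S 1) (hm : m ≠ 0)
    (dm : HasDegree C (a ^ 2) m) (Z : C.A (S.prod S)) (p : Fin (d + 1) → (V ⟶ S))
    (h : ∀ i j, i ≠ j → C.push (Obj.lift (p i) (p j)) 1 =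
      c • (C.pull (fst S S) a + C.pull (snd S S) a) ^ 2) (l : List (Fin d))
    (hl : compList C V (l.map (st C a m Z p)) ≠ 0) :
    l.IsChain (fun i j : Fin d => (j : ℕ) = (i : ℕ) + 1) := by
  induction l with
  | nil => exact List.IsChain.nil
  | cons i l ih =>
    cases l with
    | nil => exact List.IsChain.singleton _
    | cons j l =>
      have h1 : compList C V ((j :: l).map (st C a m Z p)) ≠ 0 := by
        intro h0
        apply hl
        rw [List.map_cons, compList, h0, comp_zero]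
      refine List.isChain_cons_cons.2 ⟨?_, ih h1⟩
      by_contra hij
      apply hl
      rw [List.map_cons, List.map_cons, compList, compList]
      refine mat_comp_zero hS ha hm dm Z (h _ _ ?_) _
      intro he
      apply hij
      have := congrArg Fin.val he
      simp only [Fin.val_succ, Fin.val_castSucc] at this
      exact this.symm

lemma act_chain {Z : C.A (S.prod S)} {α : C.A S}
    (hZ : C.act (shp 2 a a m m Z) α = α) {d : ℕ} (p : Fin (d + 1) → (V ⟶ S))
    (hp : ∀ i, C.push (p i) 1 = κ • (1 : C.A S)) :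
    C.act (compList C V (List.ofFn (st C a m Z p))) (C.pull (p 0) α) =
      κ ^ d • C.pull (p (Fin.last d)) α := by
  induction d with
  | zero =>
    rw [List.ofFn_zero, compList, act_dg, pow_zero, one_smul]
    rfl
  | succ d ih =>
    have h1 : C.act (st C a m Z p 0) (C.pull (p 0) α) = κ • C.pull (p (Fin.succ 0)) α := by
      change C.act (mat C a m Z (p 0) (p (Fin.succ 0))) (C.pull (p 0) α) = _
      rw [mat, C.act_comp, C.act_graph, push_pull_of (hp 0), C.act_comp, act_map_smul, hZ,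
        act_map_smul, C.act_cograph]
    have h2 := ih (fun i => p i.succ) (fun i => hp i.succ)
    rw [List.ofFn_succ, compList, C.act_comp, h1, act_map_smul]
    have h3 : (fun i : Fin d => st C a m Z p i.succ) =
        st C a m Z (fun i : Fin (d + 1) => p i.succ) := rfl
    rw [h3, h2, smul_smul, ← pow_succ']
    rfl

end chain

section weil

variable {K : Type w} [Field K] {H : WeilTheoryData.{u, v, w} C K} [hH : IsWeilProj H]

lemma cl_mat {a : C.A S} {m : ℚ} {Z : C.A (S.prod S)} (hZ : H.cl Z = 0) (p q : V ⟶ S) :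
    H.cl (mat C a m Z p q) = 0 := by
  rw [mat, shp, cl_comp, cl_comp, cl_comp, cl_comp, hZ, zero_comp, comp_zero, zero_comp, comp_zero]

lemma shp_mem {a : C.A S} {m : ℚ} (hS : S.dim = 2) (ha : a ∈ C.gr S 1) {Z : C.A (S.prod S)}
    (hZ : Z ∈ C.gr (S.prod S) 2) : shp 2 a a m m Z ∈ C.gr (S.prod S) 2 := by
  have d1 : dg C S - prj C 2 a m ∈ C.gr (S.prod S) 2 :=
    Submodule.sub_mem _ (gr_congr (by rw [hS]; norm_num) (dg_mem C S)) (prj_mem ha m)
  exact comp_mem2 hS hS d1 (comp_mem2 hS hS hZ d1)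

lemma mat_through {a : C.A S} {m : ℚ} (hS : IsPgZero H S) (hV : V.dim = 2) (ha : a ∈ C.gr S 1)
    {Z : C.A (S.prod S)} (hZ : Z ∈ C.gr (S.prod S) 2) (p q : V ⟶ S) :
    C.Deg 2 (mat C a m Z p q) ∧ ThroughPgZero H (mat C a m Z p q) := by
  have h2 := hS.1
  have g1 : C.graph p ∈ C.gr (V.prod S) 2 := gr_congr (by rw [h2]; norm_num) (graph_mem p)
  have g2 : C.cograph q ∈ C.gr (S.prod V) 2 := gr_congr (by rw [h2]; norm_num) (cograph_mem q)
  have g3 := comp_mem2 h2 h2 (shp_mem (m := m) h2 ha hZ) g2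
  exact ⟨comp_mem2 h2 hV g1 g3, S, C.graph p, _, hS, g1, g3, rfl⟩

/-- Bloch's conjecture for surfaces with `p_g = 0` implies all identities of positive degree. -/
lemma satisfies_of_bloch (h : BlochPgZero H) {d : ℕ} (hd : 0 < d)
    (c : Equiv.Perm (Fin d) → ℚ) : SatisfiesIdentity H d c := by
  intro X hX W hW α hα
  rw [act_sum, Finset.sum_eq_zero]
  intro σ _
  obtain ⟨e, rfl⟩ : ∃ e, d = e + 1 := ⟨d - 1, by omega⟩
  obtain ⟨-, -, S, Γ, Δ, hS, hΓ, hΔ, h1⟩ := hW (σ 0)
  have h2 : C.act (W (σ 0)) α = 0 := by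
    rw [h1, C.act_comp, h S hS _ (inAlbKer_iff.2 (act_albKer hX hS.1 hΓ (inAlbKer_iff.1 hα))),
      C.act_map_zero]
  rw [act_smul', List.ofFn_succ, compList, C.act_comp, h2, C.act_map_zero, smul_zero]

/-- A non-zero polynomial identity implies Bloch's conjecture for surfaces with `p_g = 0`. -/
lemma bloch_of_satisfies (H : WeilTheoryData.{u, v, w} C K) [hH : IsWeilProj H]
    (hI : ∀ (S : 𝒱.Obj) (N : ℕ), S.dim = 2 → HasPower C S N) {d : ℕ}
    {c : Equiv.Perm (Fin d) → ℚ} (hc : c ≠ 0) (h : SatisfiesIdentity H d c) :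
    BlochPgZero H := by
  intro S hS α hα
  have hα' := inAlbKer_iff.1 hα
  have hS2 := hS.1
  obtain ⟨V, p, a, m, c', κ, hV, ha, hm, hκ, dm, hp, hpp⟩ := hI S (d + 1) hS2
  -- the homologically trivial correspondence acting as the identity on the Albanese kernel
  obtain ⟨W₀, hW₀, hcl⟩ := hS.2.homDeg
  set Z := dg C S - W₀ with hZdef
  have hZ2 : Z ∈ C.gr (S.prod S) 2 :=
    Submodule.sub_mem _ (gr_congr (by rw [hS2]; norm_num) (dg_mem C S)) (degenerate_le hS2 hW₀)
  have hZcl : H.cl Z = 0 := by rw [hZdef, map_sub, hcl, sub_self]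
  have hZα : C.act Z α = α := by
    rw [hZdef, C.act_sub, act_dg, degenerate_act hS2 hW₀ hα', sub_zero]
  have hα2 := albKer_mem hS2 hα'
  have hα0 := albKer_degree H hS2 hα'
  have hsh : C.act (shp 2 a a m m Z) α = α := by
    rw [shp, C.act_comp, C.act_sub, act_dg, act_prj_zero hS2 ha m hα2 hα0, sub_zero, C.act_comp,
      hZα, C.act_sub, act_dg, act_prj_zero hS2 ha m hα2 hα0, sub_zero]
  -- a permutation with non-zero coefficient
  obtain ⟨σ, hσ⟩ : ∃ σ, c σ ≠ 0 := by
    by_contra hcon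
    push Not at hcon
    exact hc (funext hcon)
  have hW := h V hV (fun i => st C a m Z p (σ⁻¹ i)) (fun i =>
    ⟨(mat_through hS hV ha hZ2 _ _).1, cl_mat hZcl _ _, (mat_through hS hV ha hZ2 _ _).2⟩)
    (C.pull (p 0) α) (by
      rw [inAlbKer_iff, ← C.act_cograph]
      exact act_albKer hS2 hV (gr_congr (by rw [hS2]; norm_num) (cograph_mem (p 0))) hα')
  rw [Finset.sum_eq_single σ] at hW
  · have e1 : (fun i => st C a m Z p (σ⁻¹ (σ i))) = st C a m Z p := by
      funext i
      rw [show σ⁻¹ (σ i) = i from σ.symm_apply_apply i]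
    rw [e1, act_smul', act_chain hsh p hp, smul_smul] at hW
    have e2 : c σ * κ ^ d ≠ 0 := mul_ne_zero hσ (pow_ne_zero _ hκ)
    have e3 : C.pull (p (Fin.last d)) α = 0 := by
      rw [← one_smul ℚ (C.pull (p (Fin.last d)) α), ← inv_mul_cancel₀ e2, mul_smul, hW, smul_zero]
    have e4 := push_pull_of (hp (Fin.last d)) α
    rw [e3, map_zero] at e4
    rw [← one_smul ℚ α, ← inv_mul_cancel₀ hκ, mul_smul, ← e4, smul_zero]
  · intro τ _ hτ
    have e1 : compList C V (List.ofFn fun i => st C a m Z p (σ⁻¹ (τ i))) = 0 := by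
      by_contra hne
      apply hτ
      have e2 : (List.ofFn fun i => st C a m Z p (σ⁻¹ (τ i))) =
          (List.ofFn (fun i => (σ⁻¹ * τ) i)).map (st C a m Z p) := by
        rw [List.map_ofFn]
        rfl
      rw [e2] at hne
      have e3 := perm_eq_one _ (isChain_of_ne hS2 ha hm dm Z p hpp _ hne)
      rw [inv_mul_eq_one] at e3
      exact e3.symm
    rw [e1, smul_zero]
  · intro h0
    exact absurd (Finset.mem_univ σ) h0

end weil

end Pool.Agent.V1157.PI
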