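import Pool.Agent.TH829.Prime.Defs

/-!
# Multilinear polynomials in self-correspondences: definitions
-/

open CategoryTheory AlgebraicGeometry

universe u v w

namespace Pool.Agent.V1157.PI

open Pool.Agent.H914 Pool.Agent.H914.VarClass Pool.Agent.H914.VarClass.Obj Pool.Agent.W492.BB
  Pool.Agent.W550.Corr Pool.Agent.TH133 Pool.Agent.TH829.Prime

variable {k : Type u} [Field k] {𝒱 : VarClass k} (C : TheoryData.{u, v, 0} 𝒱 ℚ)

/-- The value `∑ c(σ) W_{σ(1)} W_{σ(2)} ⋯ W_{σ(d)}` (sum over all permutations `σ`) of the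
multilinear polynomial with coefficients `c` at the self-correspondences `W 1, …, W d`; the product
of self-correspondences is their composition. -/
noncomputable def polyVal {d : ℕ} (c : Equiv.Perm (Fin d) → ℚ) {X : 𝒱.Obj}
    (W : Fin d → C.A (X.prod X)) : C.A (X.prod X) :=
  ∑ σ, c σ • compList C X (List.ofFn fun i => W (σ i))

end Pool.Agent.V1157.PI
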