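import Pool.Agent.V1157.PI.Units
import Pool.Agent.V1157.PI.CoreDefs
import Pool.Agent.V1157.RC.Base

/-!
# Polynomial identities modulo prime adequate relations
-/

open CategoryTheory AlgebraicGeometry

universe u v w

namespace Pool.Agent.V1157.PI

open Pool.Agent.H914 Pool.Agent.H914.VarClass Pool.Agent.H914.VarClass.Obj Pool.Agent.W492.BB
  Pool.Agent.W550.Corr Pool.Agent.TH133 Pool.Agent.Y148.BB Pool.Agent.TH829.Prime
  Pool.Agent.V1157.RC

set_option linter.unusedSectionVars false

variable {k : Type u} [Field k] {𝒱 : VarClass k} {C : TheoryData.{u, v, 0} 𝒱 ℚ}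
  [hC : IsChowProj C] {S T V U X Y Q Z W : 𝒱.Obj} {n : ℕ}

include hC

/-! ### Adequate relations and correspondences -/

lemma I_comp_left {I : Family C} (hI : IsAdequate C I) {Γ Δ : C.A (X.prod X)}
    (hΓ : Γ ∈ I (X.prod X) X.dim) (hΔ : Δ ∈ C.gr (X.prod X) X.dim) :
    C.comp Γ Δ ∈ I (X.prod X) X.dim := by
  have h := hI.push_mem (t13 X X X) (hI.mul_mem' (C.pull_mem (t23 X X X) hΔ)
    (hI.pull_mem (fst (X.prod X) X) hΓ))
  refine hI.congr ?_ h
  rw [dim_prod, dim_prod, dim_prod]; push_cast; ring

lemma I_comp_right {I : Family C} (hI : IsAdequate C I) {Γ Δ : C.A (X.prod X)}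
    (hΓ : Γ ∈ C.gr (X.prod X) X.dim) (hΔ : Δ ∈ I (X.prod X) X.dim) :
    C.comp Γ Δ ∈ I (X.prod X) X.dim := by
  have h := hI.push_mem (t13 X X X) (hI.mul_mem (hI.pull_mem (t23 X X X) hΔ)
    (C.pull_mem (fst (X.prod X) X) hΓ))
  refine hI.congr ?_ h
  rw [dim_prod, dim_prod, dim_prod]; push_cast; ring

lemma I_act {I : Family C} (hI : IsAdequate C I) {Γ : C.A (X.prod X)} {x : C.A X} {i : ℤ}
    (hΓ : Γ ∈ I (X.prod X) X.dim) (hx : x ∈ C.gr X i) : C.act Γ x ∈ I X i := by
  have h := hI.push_mem (snd X X) (hI.mul_mem hΓ (C.pull_mem (fst X X) hx))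
  refine hI.congr ?_ h
  rw [dim_prod]; push_cast; ring

lemma I_tens_left {I : Family C} (hI : IsAdequate C I) {u : C.A (X.prod X)} {e : C.A (Z.prod Z)}
    (hu : u ∈ I (X.prod X) X.dim) (he : e ∈ C.gr (Z.prod Z) Z.dim) :
    tens C u e ∈ I ((X.prod Z).prod (X.prod Z)) (X.prod Z).dim := by
  refine hI.congr ?_ (hI.mul_mem (hI.pull_mem _ hu) (C.pull_mem _ he))
  rw [dim_prod]; push_cast; ring

lemma I_tens_right {I : Family C} (hI : IsAdequate C I) {u : C.A (X.prod X)} {e : C.A (Z.prod Z)}
    (hu : u ∈ C.gr (X.prod X) X.dim) (he : e ∈ I (Z.prod Z) Z.dim) :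
    tens C u e ∈ I ((X.prod Z).prod (X.prod Z)) (X.prod Z).dim := by
  refine hI.congr ?_ (hI.mul_mem' (C.pull_mem _ hu) (hI.pull_mem _ he))
  rw [dim_prod]; push_cast; ring

/-- A prime adequate relation contains a product `u ⊗ e` only if it contains `u` or `e`. -/
lemma P_tens {P : Family C} (hP : IsPrime C P) {u : C.A (X.prod X)} {e : C.A (Z.prod Z)}
    (hu : u ∈ C.gr (X.prod X) X.dim) (he : e ∈ C.gr (Z.prod Z) Z.dim)
    (h : tens C u e ∈ P ((X.prod Z).prod (X.prod Z)) (X.prod Z).dim) :
    u ∈ P (X.prod X) X.dim ∨ e ∈ P (Z.prod Z) Z.dim := by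
  have h1 : C.ext u e = C.pull (mid X X Z Z) (tens C u e) := by
    rw [tens_eq C, ← C.pull_comp, mid_mid, C.pull_id]
  have h2 := hP.pull_mem (mid X X Z Z) h
  rw [TheoryData.up, ← h1] at h2
  exact hP.prime hu he (hP.toIsAdequate.congr (by rw [dim_prod]; push_cast; ring) h2)

lemma compList_mem {l : List (C.A (X.prod X))} (h : ∀ γ ∈ l, γ ∈ C.gr (X.prod X) X.dim) :
    compList C X l ∈ C.gr (X.prod X) X.dim := by
  induction l with
  | nil => exact dg_mem C X
  | cons γ l ih =>
    exact comp_mem0 C (h γ (by simp)) (ih fun γ' h' => h γ' (by simp [h']))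

lemma compList_append (l l' : List (C.A (X.prod X))) :
    compList C X (l ++ l') = C.comp (compList C X l) (compList C X l') := by
  induction l with
  | nil => rw [List.nil_append, compList, dg_comp]
  | cons γ l ih => rw [List.cons_append, compList, compList, ih, comp_assoc]

lemma compList_map_tens (ι : Type*) (l : List ι) (f : ι → C.A (X.prod X))
    (g : ι → C.A (Z.prod Z)) :
    compList C (X.prod Z) (l.map fun i => tens C (f i) (g i)) =
      tens C (compList C X (l.map f)) (compList C Z (l.map g)) := by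
  induction l with
  | nil => rw [List.map_nil, List.map_nil, List.map_nil, compList, compList, compList, tens_dg]
  | cons i l ih =>
    rw [List.map_cons, List.map_cons, List.map_cons, compList, compList, compList, ih,
      tens_comp' (Γ := f i)]

lemma P_tail {I : Family C} (hI : IsAdequate C I) {γ : C.A (X.prod X)} {l : List (C.A (X.prod X))}
    (hγ : γ ∈ I (X.prod X) X.dim) (h : ∀ γ ∈ l, γ ∈ C.gr (X.prod X) X.dim) :
    compList C X (γ :: l) ∈ I (X.prod X) X.dim :=
  I_comp_left hI hγ (compList_mem h)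

/-! ### The identity implies nilpotence -/

/-- The value of the polynomial is in `P` for all arguments in `I`. -/
def Ident (I P : Family C) {d : ℕ} (c : Equiv.Perm (Fin d) → ℚ) : Prop :=
  ∀ (X : 𝒱.Obj) (W : Fin d → C.A (X.prod X)), (∀ i, W i ∈ I (X.prod X) X.dim) →
    polyVal C c W ∈ P (X.prod X) X.dim

/-- Products of length `d` of elements of `I` are in `P`. -/
def NilP (I P : Family C) (d : ℕ) : Prop :=
  ∀ (X : 𝒱.Obj) (l : List (C.A (X.prod X))), l.length = d →
    (∀ γ ∈ l, γ ∈ I (X.prod X) X.dim) → compList C X l ∈ P (X.prod X) X.dim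

lemma nilP_of_ident {I P : Family C} (hI : IsAdequate C I) (hP : IsPrime C P) {d : ℕ}
    {c : Equiv.Perm (Fin d) → ℚ} (hc : c ≠ 0) (h : Ident I P c) {Y : 𝒱.Obj} (hY : 0 < Y.dim) :
    NilP I P d := by
  intro X l hl hlI
  subst hl
  obtain ⟨Q, e, a, b, hab⟩ := exists_units (C := C) hY l.length
  obtain ⟨σ, hσ⟩ : ∃ σ, c σ ≠ 0 := by
    by_contra hcon
    push Not at hcon
    exact hc (funext hcon)
  set w : Fin l.length → C.A (X.prod X) := fun i => l.get i with hw
  have hwI : ∀ i, w i ∈ I (X.prod X) X.dim := fun i => hlI _ (l.get_mem i)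
  have hstE : ∀ i, stE C a b i ∈ C.gr (Q.prod Q) Q.dim := fun i => E_mem hab _ _
  have h1 := h (X.prod Q) (fun i => tens C (w (σ⁻¹ i)) (stE C a b (σ⁻¹ i)))
    (fun i => I_tens_left hI (hwI _) (hstE _))
  have key : ∀ τ : Equiv.Perm (Fin l.length),
      compList C (X.prod Q) (List.ofFn fun i => tens C (w (σ⁻¹ (τ i))) (stE C a b (σ⁻¹ (τ i)))) =
        tens C (compList C X ((List.ofFn fun i => (σ⁻¹ * τ) i).map w))
          (compList C Q ((List.ofFn fun i => (σ⁻¹ * τ) i).map (stE C a b))) := by
    intro τ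
    rw [← compList_map_tens, List.map_ofFn]
    rfl
  rw [polyVal, Finset.sum_eq_single σ] at h1
  · rw [key σ] at h1
    have e0 : (List.ofFn fun i => (σ⁻¹ * σ) i) = List.finRange l.length := by
      rw [inv_mul_cancel]
      exact List.ofFn_id _
    rw [e0] at h1
    have h2 : tens C (compList C X ((List.finRange l.length).map w))
        (compList C Q ((List.finRange l.length).map (stE C a b))) ∈
        P ((X.prod Q).prod (X.prod Q)) (X.prod Q).dim := by
      have h3 := Submodule.smul_mem _ (c σ)⁻¹ h1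
      rwa [smul_smul, inv_mul_cancel₀ hσ, one_smul] at h3
    have e1 : (List.finRange l.length).map w = l := by
      rw [hw]
      exact List.map_get_finRange l
    rw [e1] at h2
    rcases P_tens hP (compList_mem fun γ hγ => hI.le_gr _ _ (hlI γ hγ))
      (compList_mem (by
        intro γ hγ
        rw [List.mem_map] at hγ
        obtain ⟨i, -, rfl⟩ := hγ
        exact hstE i)) h2 with h3 | h3
    · exact h3
    · exfalso
      have h4 := I_act hP.toIsAdequate h3 (hab.ha 0)
      have h5 := act_stE hab (fun i => i)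
      have e2 : (List.finRange l.length).map (stE C a b) =
          List.ofFn fun i : Fin l.length => E C a b i.castSucc i.succ := by
        rw [← List.ofFn_eq_map]
        rfl
      rw [e2, h5] at h4
      exact notMem_of_units hab hP _ h4
  · intro τ _ hτ
    rw [key τ]
    have e1 : compList C Q ((List.ofFn fun i => (σ⁻¹ * τ) i).map (stE C a b)) = 0 := by
      by_contra hne
      apply hτ
      have e3 := perm_eq_one _ (isChain_of_stE hab _ hne)
      rw [inv_mul_eq_one] at e3
      exact e3.symm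
    rw [e1, tens_zero_right, smul_zero]
  · intro h0
    exact absurd (Finset.mem_univ σ) h0

lemma nilP_pred {I P : Family C} (hI : IsAdequate C I) (hP : IsPrime C P) {d : ℕ} (hd : 0 < d)
    (h : NilP I P (d + 1)) : NilP I P d := by
  intro X l hl hlI
  by_contra hu
  have hlgr : ∀ γ ∈ l, γ ∈ C.gr (X.prod X) X.dim := fun γ hγ => hI.le_gr _ _ (hlI γ hγ)
  have h1 : ∀ w ∈ I (X.prod X) X.dim, w ∈ P (X.prod X) X.dim := by
    intro w hw
    have h2 := h (X.prod X) (l.map (fun γ => tens C γ (dg C X)) ++ [tens C (dg C X) w])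
      (by simp [hl]) (by
        intro γ hγ
        rw [List.mem_append, List.mem_map, List.mem_singleton] at hγ
        rcases hγ with ⟨γ', h', rfl⟩ | rfl
        · exact I_tens_left hI (hlI _ h') (dg_mem C X)
        · exact I_tens_right hI (dg_mem C X) hw)
    have e1 := compList_map_tens (C := C) (X := X) (Z := X) (C.A (X.prod X)) l (fun γ => γ)
      (fun _ => dg C X)
    have e2 : ∀ l' : List (C.A (X.prod X)), compList C X (l'.map fun _ => dg C X) = dg C X := by
      intro l'
      induction l' with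
      | nil => rfl
      | cons γ l' ih => rw [List.map_cons, compList, ih, dg_comp]
    rw [e2, List.map_id'] at e1
    rw [compList_append, e1, compList, compList, comp_dg, tens_comp', comp_dg, dg_comp] at h2
    rcases P_tens hP (compList_mem hlgr) (hI.le_gr _ _ hw) h2 with h3 | h3
    · exact absurd h3 hu
    · exact h3
  cases l with
  | nil => simp at hl; omega
  | cons γ l =>
    exact hu (P_tail hP.toIsAdequate (h1 γ (hlI γ (by simp)))
      fun γ' h' => hlgr γ' (by simp [h']))

lemma nilP_one {I P : Family C} (hI : IsAdequate C I) (hP : IsPrime C P) {d : ℕ} (hd : 0 < d)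
    (h : NilP I P d) : NilP I P 1 := by
  induction d with
  | zero => omega
  | succ d ih =>
    by_cases h0 : d = 0
    · subst h0; exact h
    · exact ih (by omega) (nilP_pred hI hP (by omega) h)

/-- **The main theorem.** -/
theorem core {I P : Family C} (hI : IsAdequate C I) (h1 : ∀ X : 𝒱.Obj, (1 : C.A X) ∉ I X 0)
    (hP : IsPrime C P) {d : ℕ} (hd : 0 < d) {c : Equiv.Perm (Fin d) → ℚ} (hc : c ≠ 0) :
    (∀ X i, I X i ≤ P X i) ↔ Ident I P c := by
  constructor
  · intro h X W hW
    rw [polyVal]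
    refine Submodule.sum_mem _ fun σ _ => Submodule.smul_mem _ _ ?_
    obtain ⟨e, rfl⟩ : ∃ e, d = e + 1 := ⟨d - 1, by omega⟩
    rw [List.ofFn_succ]
    refine P_tail hP.toIsAdequate (h _ _ (hW _)) ?_
    intro γ hγ
    rw [List.mem_ofFn] at hγ
    obtain ⟨i, rfl⟩ := hγ
    exact hI.le_gr _ _ (hW _)
  · intro h X i z hz
    by_cases hX : X.dim = 0
    · have hzgr := hI.le_gr _ _ hz
      rcases lt_trichotomy i 0 with hi | hi | hi
      · rw [C.gr_neg X i hi] at hzgr
        rw [(Submodule.mem_bot _).1 hzgr]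
        exact Submodule.zero_mem _
      · subst hi
        obtain ⟨q, rfl⟩ := hC.gr_zero X z hzgr
        by_cases hq : q = 0
        · rw [hq, zero_smul]; exact Submodule.zero_mem _
        · exfalso
          apply h1 X
          have h3 := Submodule.smul_mem _ q⁻¹ hz
          rwa [smul_smul, inv_mul_cancel₀ hq, one_smul] at h3
      · rw [hC.gr_top X i z hzgr (by rw [hX]; exact_mod_cast hi)]
        exact Submodule.zero_mem _
    · have hX' : 0 < X.dim := Nat.pos_of_ne_zero hX
      have hn := nilP_one hI hP hd (nilP_of_ident hI hP hc h hX')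
      have hzgr := hI.le_gr _ _ hz
      rcases lt_or_ge i 0 with hi | hi
      · rw [C.gr_neg X i hi] at hzgr
        rw [(Submodule.mem_bot _).1 hzgr]
        exact Submodule.zero_mem _
      rcases lt_or_ge (X.dim : ℤ) i with hi' | hi'
      · rw [hC.gr_top X i z hzgr hi']
        exact Submodule.zero_mem _
      obtain ⟨j, rfl⟩ : ∃ j : ℕ, i = j := ⟨i.toNat, by omega⟩
      have hj : j ≤ X.dim := by exact_mod_cast hi'
      obtain ⟨hh, hh1, q, hq, hhq⟩ := hC.polarized X
      have hpow : hh ^ (X.dim - j) ∈ C.gr X ((X.dim - j : ℕ) : ℤ) := pow_mem' hh1 _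
      have h2 : C.ext (hh ^ (X.dim - j)) z ∈ I (X.prod X) X.dim :=
        hI.congr (by push_cast [hj]; ring) (hI.ext_mem_right hpow hz)
      have h3 := hn X [C.ext (hh ^ (X.dim - j)) z] rfl (by
        intro γ hγ
        rw [List.mem_singleton] at hγ
        rw [hγ]
        exact h2)
      rw [compList, compList, comp_dg] at h3
      rcases hP.prime hpow hzgr (hP.toIsAdequate.congr (by push_cast [hj]; ring) h3) with h4 | h4
      · exfalso
        have h5 := hP.mul_mem h4 (pow_mem' hh1 j)
        rw [TheoryData.mul, ← pow_add, Nat.sub_add_cancel hj] at h5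
        have h6 := hP.push_mem (snd X X) (hP.pull_mem (fst X X) h5)
        change C.down (snd X X) (C.up (fst X X) (hh ^ X.dim)) ∈ _ at h6
        rw [hhq] at h6
        have h7 := Submodule.smul_mem _ q⁻¹ h6
        rw [smul_smul, inv_mul_cancel₀ hq, one_smul] at h7
        refine hP.one_notMem X (hP.toIsAdequate.congr ?_ h7)
        rw [dim_prod]; push_cast [hj]; ring
      · exact h4

end Pool.Agent.V1157.PI
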