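import Pool.Agent.Y152.AS.Defs2

/-!
# Polynomial identities for homologically trivial correspondences between surfaces: definitions
-/

open CategoryTheory AlgebraicGeometry

universe u v w

namespace Pool.Agent.V1157.PI

open Pool.Agent.H914 Pool.Agent.H914.VarClass Pool.Agent.H914.VarClass.Obj Pool.Agent.W492.BB
  Pool.Agent.W550.Corr Pool.Agent.TH133 Pool.Agent.Y152.AS

variable {k : Type u} [Field k] {𝒱 : VarClass k}

/-- There are a surface `V` and `N` morphisms `p i : V ⟶ S` of the same degree `κ ≠ 0`, and a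
divisor class `a` on the surface `S` with `(a ^ 2) ≠ 0`, such that for `i ≠ j` the class
`(p i, p j)_* [V]` on `S × S` is a rational multiple of `(a × S + S × a) ^ 2`. (For smooth
projective varieties over an algebraically closed field: `a` is very ample and `V ⊆ S^N` is a
general complete intersection of `2 N - 2` divisors in the class of the sum of the pull-backs of
`a`, by the theorem of Bertini.) -/
def HasPower (C : TheoryData.{u, v, 0} 𝒱 ℚ) (S : 𝒱.Obj) (N : ℕ) : Prop :=
  ∃ (V : 𝒱.Obj) (p : Fin N → (V ⟶ S)) (a : C.A S) (m c κ : ℚ),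
    V.dim = 2 ∧ C.Deg 1 a ∧ m ≠ 0 ∧ κ ≠ 0 ∧ HasDegree C (a ^ 2) m ∧
    (∀ i, C.down (p i) 1 = κ • (1 : C.A S)) ∧
    ∀ i j, i ≠ j → C.down (Obj.lift (p i) (p j)) 1 =
      c • (C.up (fst S S) a + C.up (snd S S) a) ^ 2

variable {C : TheoryData.{u, v, 0} 𝒱 ℚ} {K : Type w} [Field K] (H : WeilTheoryData.{u, v, w} C K)

/-- The surface `S` has geometric genus zero, in the form: its diagonal is homologically equivalent
to a degenerate correspondence (for complex surfaces this is equivalent to `p_g = 0`, by the
theorem of Lefschetz on classes of type `(1, 1)`). -/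
def IsPgZero (S : 𝒱.Obj) : Prop := S.dim = 2 ∧ IsHomDegenerate H (dg C S)

/-- Bloch's conjecture for surfaces of geometric genus zero: the Albanese kernel
`F^2 CH_0(S)_ℚ` is zero (for complex surfaces this is equivalent to the finite-dimensionality of
the group of zero-cycles, by theorems of Mumford and Roitman). -/
def BlochPgZero : Prop := ∀ S : 𝒱.Obj, IsPgZero H S → ∀ α : C.A S, InAlbKer C α → α = 0

/-- The self-correspondence `W` factors through a surface of geometric genus zero. -/
def ThroughPgZero {X : 𝒱.Obj} (W : C.A (X.prod X)) : Prop :=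
  ∃ (S : 𝒱.Obj) (Γ : C.A (X.prod S)) (Δ : C.A (S.prod X)), IsPgZero H S ∧ C.Deg 2 Γ ∧
    C.Deg 2 Δ ∧ W = C.comp Γ Δ

/-- For every surface `X`, the homologically trivial self-correspondences `W 1, …, W d` of `X` which
factor through surfaces of geometric genus zero satisfy, on the Albanese kernel of `X`, the
multilinear polynomial identity `∑ c(σ) W_{σ(1)} W_{σ(2)} ⋯ W_{σ(d)} = 0`, the sum over all
permutations `σ`. -/
def SatisfiesIdentity (d : ℕ) (c : Equiv.Perm (Fin d) → ℚ) : Prop :=
  ∀ X : 𝒱.Obj, X.dim = 2 → ∀ W : Fin d → C.A (X.prod X),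
    (∀ i, C.Deg 2 (W i) ∧ H.cl (W i) = 0 ∧ ThroughPgZero H (W i)) →
    KillsAlbKer C (∑ σ, c σ • compList C X (List.ofFn fun i => W (σ i)))

end Pool.Agent.V1157.PI
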