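import Pool.Agent.V1157.PI.Core

/-!
# Homological equivalence is a prime adequate relation
-/

open CategoryTheory AlgebraicGeometry

universe u v w

namespace Pool.Agent.V1157.PI

open Pool.Agent.H914 Pool.Agent.H914.VarClass Pool.Agent.H914.VarClass.Obj Pool.Agent.W492.BB
  Pool.Agent.W550.Corr Pool.Agent.TH133 Pool.Agent.Y148.BB Pool.Agent.TH829.Prime
  Pool.Agent.V1157.RC

set_option linter.unusedSectionVars false

variable {k : Type u} [Field k] {𝒱 : VarClass k} {C : TheoryData.{u, v, 0} 𝒱 ℚ}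
  {K : Type w} [Field K]

/-- Homological equivalence. -/
def homFam (H : WeilTheoryData.{u, v, w} C K) [IsChowProj C] [IsWeilProj H] : Family C :=
  fun X i =>
  { carrier := {a | C.Deg i a ∧ H.cl a = 0}
    zero_mem' := ⟨Submodule.zero_mem _, map_zero _⟩
    add_mem' := by
      rintro a b ⟨h1, h2⟩ ⟨h3, h4⟩
      exact ⟨Submodule.add_mem _ h1 h3, by rw [map_add, h2, h4, add_zero]⟩
    smul_mem' := by
      rintro q a ⟨h1, h2⟩
      refine ⟨Submodule.smul_mem _ q h1, ?_⟩
      rw [Algebra.smul_def, map_mul, h2, mul_zero] }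

variable {H : WeilTheoryData.{u, v, w} C K} [hC : IsChowProj C] [hH : IsWeilProj H]
  {X Y : 𝒱.Obj}

lemma mem_homFam {i : ℤ} {a : C.A X} : a ∈ homFam H X i ↔ C.Deg i a ∧ H.cl a = 0 := Iff.rfl

lemma isAdequate_homFam (H : WeilTheoryData.{u, v, w} C K) [hH : IsWeilProj H] :
    IsAdequate C (homFam H) where
  le_gr X i a ha := ha.1
  pull_mem f i b hb := ⟨C.pull_mem f hb.1, by
    change H.cl (C.pull f b) = 0
    rw [H.cl_pull, hb.2, map_zero]⟩
  push_mem {X Y} f i a ha := ⟨by
      have h5 := C.push_mem f ha.1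
      rwa [one_mul] at h5, by
    change H.cl (C.push f a) = 0
    rw [H.cl_push, ha.2, map_zero]⟩
  mul_mem {X i j a b} ha hb := ⟨C.mul_mem ha.1 hb, by
    change H.cl (a * b) = 0
    rw [map_mul, ha.2, zero_mul]⟩

lemma isPrime_homFam (H : WeilTheoryData.{u, v, w} C K) [hH : IsWeilProj H] :
    IsPrime C (homFam H) := by
  refine { isAdequate_homFam H with one_notMem := ?_, prime := ?_ }
  · intro X h
    have := h.2
    rw [map_one] at this
    exact hH.one_ne_zero X this
  · intro X Y i j x y hx hy h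
    by_cases hx0 : H.cl x = 0
    · exact Or.inl ⟨hx, hx0⟩
    right
    refine ⟨hy, ?_⟩
    -- a homogeneous class `b` with `tr (x b) ≠ 0`
    obtain ⟨m, b, hb, hxb⟩ : ∃ (m : ℤ) (b : H.A X), b ∈ H.gr X m ∧ H.tr X (H.cl x * b) ≠ 0 := by
      by_contra hcon
      push Not at hcon
      apply hx0
      apply H.nondeg
      have h0 : (H.tr X ∘ₗ LinearMap.mulLeft K (H.cl x)) = 0 := by
        apply ext_gr H
        intro m b hb
        rw [LinearMap.comp_apply, LinearMap.mulLeft_apply, LinearMap.zero_apply]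
        exact hcon m b hb
      intro b
      exact LinearMap.congr_fun h0 b
    have hdeg : 2 * i + m = 2 * X.dim := by
      by_contra hne
      exact hxb (tr_zero H (H.mul_mem (H.cl_mem hx) hb) hne)
    have hv : H.cl x * b ∈ H.gr X (2 * X.dim) := by
      rw [← hdeg]
      exact H.mul_mem (H.cl_mem hx) hb
    have hs : H.push (snd X Y) (H.pull (fst X Y) (H.cl x * b)) ∈ H.gr Y 0 := by
      have h1 := H.push_mem (snd X Y) (H.pull_mem (fst X Y) hv)
      have e : 2 * (X.dim : ℤ) + 2 * ((Y.dim : ℤ) - ((X.prod Y).dim : ℤ)) = 0 := by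
        rw [dim_prod]; push_cast; ring
      rwa [e] at h1
    obtain ⟨c, hc⟩ := hH.gr_zero Y _ hs
    have hc0 : c ≠ 0 := by
      rintro rfl
      rw [zero_smul] at hc
      obtain ⟨o, ho, h1, h2⟩ := hC.exists_deg_one Y
      have e1 : H.push (fst X Y) (H.pull (snd X Y) (H.cl o)) = 1 := by
        have h3 : C.push (fst X Y) (C.pull (snd X Y) o) = 1 := h1 X
        rw [← H.cl_pull, ← H.cl_push, h3, map_one]
      have e2 : H.tr (X.prod Y) (H.pull (fst X Y) (H.cl x * b) * H.pull (snd X Y) (H.cl o)) =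
          H.tr X (H.cl x * b) := by
        rw [← H.tr_push (fst X Y), H.proj_left, e1, mul_one]
      have e3 : H.tr (X.prod Y) (H.pull (fst X Y) (H.cl x * b) * H.pull (snd X Y) (H.cl o)) = 0 := by
        rw [← H.tr_push (snd X Y), H.proj_right, hc, zero_mul, map_zero]
      rw [e2] at e3
      exact hxb e3
    have h1 : H.pull (fst X Y) (H.cl x) * H.pull (snd X Y) (H.cl y) = 0 := by
      have h2 := h.2
      rw [TheoryData.ext, map_mul, H.cl_pull, H.cl_pull] at h2
      exact h2
    have h2 : H.pull (fst X Y) (H.cl x * b) * H.pull (snd X Y) (H.cl y) = 0 := by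
      have e1 : H.pull (snd X Y) (H.cl y) = H.cl (C.pull (snd X Y) y) := (H.cl_pull _ _).symm
      rw [map_mul, mul_assoc, e1, ← H.cl_central, ← e1, ← mul_assoc, h1, zero_mul]
    have h3 := congrArg (H.push (snd X Y)) h2
    rw [H.proj_right, hc, smul_mul_assoc, one_mul, map_zero] at h3
    rw [← one_smul K (H.cl y), ← inv_mul_cancel₀ hc0, mul_smul, h3, smul_zero]

end Pool.Agent.V1157.PI
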