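import Pool.Agent.TH829.Prime.Num
import Pool.Agent.Y148.BB.Corr
import Pool.Agent.V1157.PI.Stair

/-!
# Matrix units in the correspondences of powers of a variety
-/

open CategoryTheory AlgebraicGeometry

universe u v w

namespace Pool.Agent.V1157.PI

open Pool.Agent.H914 Pool.Agent.H914.VarClass Pool.Agent.H914.VarClass.Obj Pool.Agent.W492.BB
  Pool.Agent.W550.Corr Pool.Agent.TH133 Pool.Agent.Y148.BB Pool.Agent.TH829.Prime

set_option linter.unusedSectionVars false

variable {k : Type u} [Field k] {𝒱 : VarClass k} {C : TheoryData.{u, v, 0} 𝒱 ℚ}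
  [hC : IsChowProj C] {S T V U X Y Q : 𝒱.Obj} {n : ℕ}

/-- Dual families of classes on `Q`. -/
structure Units (C : TheoryData.{u, v, 0} 𝒱 ℚ) {ι : Type} [DecidableEq ι] {Q : 𝒱.Obj} (e : ℤ)
    (a b : ι → C.A Q) : Prop where
  ha : ∀ i, a i ∈ C.gr Q e
  hb : ∀ i, b i ∈ C.gr Q (Q.dim - e)
  deg : ∀ i j, HasDegree C (a i * b j) (if i = j then 1 else 0)

include hC

lemma exists_o (Y : 𝒱.Obj) : ∃ o : C.A Y, o ∈ C.gr Y Y.dim ∧ HasDegree C o 1 := by
  obtain ⟨a, ha, h1, h2⟩ := hC.exists_deg_one Y
  refine ⟨a, ha, fun Z => ?_⟩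
  rw [one_smul]
  exact ⟨h2 Z, h1 Z⟩

lemma units_one (Y : 𝒱.Obj) : ∃ (e : ℤ) (a b : Fin 1 → C.A Y), Units C e a b := by
  obtain ⟨o, ho, ho1⟩ := exists_o (C := C) Y
  refine ⟨0, fun _ => 1, fun _ => o, fun _ => C.one_mem Y, fun _ => by rwa [sub_zero],
    fun i j => ?_⟩
  rw [if_pos (Subsingleton.elim i j), one_mul]
  exact ho1

lemma units_double {Y : 𝒱.Obj} (hY : 0 < Y.dim) {Q : 𝒱.Obj} {ι : Type} [DecidableEq ι] {e : ℤ}
    {a b : ι → C.A Q} (h : Units C e a b) :
    ∃ (a' b' : ι × Bool → C.A (Q.prod (Y.prod Y))), Units C (e + Y.dim) a' b' := by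
  obtain ⟨o, ho, ho1⟩ := exists_o (C := C) Y
  have h1 : HasDegree C (1 : C.A Y) 0 :=
    hasDegree_of_ne (i := 0) (C.one_mem Y) (by exact_mod_cast hY.ne)
  have hoo : o * o = 0 := hC.gr_top Y (Y.dim + Y.dim) _ (C.mul_mem ho ho) (by omega)
  have hoo1 : HasDegree C (C.ext o o) 1 := by
    have := hasDegree_ext ho1 ho1
    rwa [one_mul] at this
  have m1 : C.ext o (1 : C.A Y) ∈ C.gr (Y.prod Y) Y.dim :=
    gr_congr (by ring) (ext_mem' ho (C.one_mem Y))
  have m2 : C.ext (1 : C.A Y) o ∈ C.gr (Y.prod Y) Y.dim :=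
    gr_congr (by ring) (ext_mem' (C.one_mem Y) ho)
  set al : Bool → C.A (Y.prod Y) := fun t => if t then C.ext 1 o else C.ext o 1 with hal
  set be : Bool → C.A (Y.prod Y) := fun t => if t then C.ext o 1 else C.ext 1 o with hbe
  have mal : ∀ t, al t ∈ C.gr (Y.prod Y) Y.dim := by
    intro t; cases t <;> simp [hal, m1, m2]
  have mbe : ∀ t, be t ∈ C.gr (Y.prod Y) Y.dim := by
    intro t; cases t <;> simp [hbe, m1, m2]
  have z0 : HasDegree C (C.ext (0 : C.A Y) (1 : C.A Y)) 0 := by
    rw [C.ext_zero_left]; exact hasDegree_zero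
  have z1 : HasDegree C (C.ext (1 : C.A Y) (0 : C.A Y)) 0 := by
    rw [C.ext_zero_right]; exact hasDegree_zero
  have dd : ∀ s t, HasDegree C (al s * be t) (if s = t then 1 else 0) := by
    intro s t
    cases s <;> cases t
    · have : al false * be false = C.ext o o := by simp [hal, hbe, ext_mul_ext]
      rw [this, if_pos rfl]; exact hoo1
    · have : al false * be true = C.ext 0 1 := by simp [hal, hbe, ext_mul_ext, hoo]
      rw [this, if_neg (by simp)]; exact z0
    · have : al true * be false = C.ext 1 0 := by simp [hal, hbe, ext_mul_ext, hoo]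
      rw [this, if_neg (by simp)]; exact z1
    · have : al true * be true = C.ext o o := by simp [hal, hbe, ext_mul_ext]
      rw [this, if_pos rfl]; exact hoo1
  refine ⟨fun x => C.ext (a x.1) (al x.2), fun x => C.ext (b x.1) (be x.2), ⟨?_, ?_, ?_⟩⟩
  · intro x
    exact ext_mem' (h.ha _) (mal _)
  · intro x
    refine gr_congr ?_ (ext_mem' (h.hb _) (mbe _))
    rw [dim_prod, dim_prod]; push_cast; ring
  · rintro ⟨i, s⟩ ⟨j, t⟩
    simp only
    rw [ext_mul_ext]
    have := hasDegree_ext (h.deg i j) (dd s t)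
    by_cases hij : i = j
    · by_cases hst : s = t
      · rw [if_pos hij, if_pos hst, one_mul] at this
        rw [if_pos (by rw [hij, hst])]
        exact this
      · rw [if_neg hst, mul_zero] at this
        rw [if_neg (by intro hx; exact hst (Prod.ext_iff.1 hx).2)]
        exact this
    · rw [if_neg hij, zero_mul] at this
      rw [if_neg (by intro hx; exact hij (Prod.ext_iff.1 hx).1)]
      exact this

lemma exists_units {Y : 𝒱.Obj} (hY : 0 < Y.dim) (N : ℕ) :
    ∃ (Q : 𝒱.Obj) (e : ℤ) (a b : Fin (N + 1) → C.A Q), Units C e a b := by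
  induction N with
  | zero =>
    obtain ⟨e, a, b, h⟩ := units_one (C := C) Y
    exact ⟨Y, e, a, b, h⟩
  | succ N ih =>
    obtain ⟨Q, e, a, b, h⟩ := ih
    obtain ⟨a', b', h'⟩ := units_double hY h
    let f : Fin (N + 1 + 1) → Fin (N + 1) × Bool := fun i =>
      if hi : (i : ℕ) < N + 1 then (⟨i, hi⟩, false) else (0, true)
    have hf : Function.Injective f := by
      intro i j hij
      simp only [f] at hij
      split_ifs at hij with h1 h2
      · rw [Prod.mk.injEq, Fin.mk.injEq] at hij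
        exact Fin.ext hij.1
      · simp at hij
      · simp at hij
      · ext
        omega
    refine ⟨_, _, a' ∘ f, b' ∘ f, fun i => h'.ha _, fun i => h'.hb _, fun i j => ?_⟩
    have := h'.deg (f i) (f j)
    rwa [show (if f i = f j then (1 : ℚ) else 0) = if i = j then 1 else 0 by
      simp [hf.eq_iff]] at this

/-- The matrix units. -/
noncomputable def E (C : TheoryData.{u, v, 0} 𝒱 ℚ) {ι : Type} {Q : 𝒱.Obj} (a b : ι → C.A Q)
    (i j : ι) : C.A (Q.prod Q) := C.ext (b i) (a j)

lemma E_mem {ι : Type} [DecidableEq ι] {e : ℤ} {a b : ι → C.A Q} (h : Units C e a b) (i j : ι) :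
    E C a b i j ∈ C.gr (Q.prod Q) Q.dim :=
  gr_congr (by ring) (ext_mem' (h.hb i) (h.ha j))

lemma E_comp_ne {ι : Type} [DecidableEq ι] {e : ℤ} {a b : ι → C.A Q} (h : Units C e a b)
    {i j i' j' : ι} (hne : j ≠ i') : C.comp (E C a b i j) (E C a b i' j') = 0 := by
  have h1 := h.deg j i'
  rw [if_neg hne] at h1
  rw [E, E, comp_ext_ext h1, zero_smul]

lemma act_E {ι : Type} [DecidableEq ι] {e : ℤ} {a b : ι → C.A Q} (h : Units C e a b) (i j : ι) :
    C.act (E C a b i j) (a i) = a j := by
  have h1 := h.deg i i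
  rw [if_pos rfl] at h1
  rw [E, act_ext' (q := 1) (by rw [ch_comm C]; exact h1), one_smul]

lemma notMem_of_units {ι : Type} [DecidableEq ι] {e : ℤ} {a b : ι → C.A Q} (h : Units C e a b)
    {P : Family C} (hP : IsPrime C P) (i : ι) : a i ∉ P Q e := by
  intro hi
  have h1 := hP.mul_mem hi (h.hb i)
  have h2 := h.deg i i
  rw [if_pos rfl] at h2
  have h3 := hP.push_mem (snd Q Q) (hP.pull_mem (fst Q Q) h1)
  have e1 : C.down (snd Q Q) (C.up (fst Q Q) (C.mul (a i) (b i))) = 1 := by
    have := (h2 Q).1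
    rwa [one_smul] at this
  rw [e1] at h3
  refine hP.one_notMem Q (hP.toIsAdequate.congr ?_ h3)
  rw [dim_prod]; push_cast; ring

section stair

/-- The staircase of matrix units. -/
noncomputable def stE (C : TheoryData.{u, v, 0} 𝒱 ℚ) {d : ℕ} {Q : 𝒱.Obj}
    (a b : Fin (d + 1) → C.A Q) (i : Fin d) : C.A (Q.prod Q) := E C a b i.castSucc i.succ

lemma isChain_of_stE {d : ℕ} {e : ℤ} {a b : Fin (d + 1) → C.A Q} (h : Units C e a b)
    (l : List (Fin d)) (hl : compList C Q (l.map (stE C a b)) ≠ 0) :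
    l.IsChain (fun i j : Fin d => (j : ℕ) = (i : ℕ) + 1) := by
  induction l with
  | nil => exact List.IsChain.nil
  | cons i l ih =>
    cases l with
    | nil => exact List.IsChain.singleton _
    | cons j l =>
      have h1 : compList C Q ((j :: l).map (stE C a b)) ≠ 0 := by
        intro h0
        apply hl
        rw [List.map_cons, compList, h0, comp_zero]
      refine List.isChain_cons_cons.2 ⟨?_, ih h1⟩
      by_contra hij
      apply hl
      rw [List.map_cons, List.map_cons, compList, compList, ← comp_assoc, stE, stE,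
        E_comp_ne h, zero_comp]
      intro he
      apply hij
      have := congrArg Fin.val he
      simp only [Fin.val_succ, Fin.val_castSucc] at this
      exact this.symm

/-- The product of the staircase maps the first class to the last one. -/
lemma act_stE {d N : ℕ} {e : ℤ} {a b : Fin (N + 1) → C.A Q} (h : Units C e a b)
    (g : Fin (d + 1) → Fin (N + 1)) :
    C.act (compList C Q (List.ofFn fun i : Fin d => E C a b (g i.castSucc) (g i.succ)))
      (a (g 0)) = a (g (Fin.last d)) := by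
  induction d with
  | zero =>
    rw [List.ofFn_zero, compList, act_dg]
    rfl
  | succ d ih =>
    have h2 := ih (fun i => g i.succ)
    rw [List.ofFn_succ, compList, C.act_comp]
    have h1 : C.act (E C a b (g (Fin.castSucc 0)) (g (Fin.succ 0))) (a (g 0)) =
        a (g (Fin.succ 0)) := act_E h _ _
    rw [h1]
    exact h2

end stair

end Pool.Agent.V1157.PI
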